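import Pool.Agent.H23.Selmer

/-!
# Local solubility of the descent quartics: two necessary conditions
-/

namespace Pool.Agent.H35

open Pool.Agent.H23

section

variable {p : ℕ} [hp : Fact p.Prime]

theorem mk_int {x : ℚ_[p]} (h : ‖x‖ ≤ 1) : ∃ y : ℤ_[p], (y : ℚ_[p]) = x := ⟨⟨x, h⟩, rfl⟩

/-- Normal form of a `p`-adic solution of `N² = d M⁴ + a M² e² + c e⁴`. -/
theorem norm_form {a c d : ℤ} {N M e : ℚ_[p]} (h0 : M ≠ 0 ∨ e ≠ 0)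
    (h : N ^ 2 = (d : ℚ_[p]) * M ^ 4 + (a : ℚ_[p]) * M ^ 2 * e ^ 2 + (c : ℚ_[p]) * e ^ 4) :
    (∃ t n : ℤ_[p], n ^ 2 = (d : ℤ_[p]) + (a : ℤ_[p]) * t ^ 2 + (c : ℤ_[p]) * t ^ 4) ∨
    (∃ t n : ℤ_[p], (p : ℤ_[p]) ∣ t ∧
      n ^ 2 = (d : ℤ_[p]) * t ^ 4 + (a : ℤ_[p]) * t ^ 2 + (c : ℤ_[p])) := by
  have hint : ∀ x : ℚ_[p], ‖x ^ 2‖ ≤ 1 → ‖x‖ ≤ 1 := by
    intro x hx
    rw [norm_pow] at hx
    exact (pow_le_one_iff_of_nonneg (norm_nonneg x) two_ne_zero).mp hx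
  rcases le_or_gt ‖e‖ ‖M‖ with hle | hlt
  · left
    have hM : M ≠ 0 := by
      rintro rfl
      rw [norm_zero] at hle
      have : e = 0 := norm_le_zero_iff.mp hle
      rcases h0 with h0 | h0
      · exact h0 rfl
      · exact h0 this
    have ht : ‖e / M‖ ≤ 1 := by
      rw [norm_div]
      exact div_le_one_of_le₀ hle (norm_nonneg _)
    obtain ⟨t, ht'⟩ := mk_int ht
    have hn2 : (N / M ^ 2) ^ 2 = (d : ℚ_[p]) + (a : ℚ_[p]) * (t : ℚ_[p]) ^ 2 +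
        (c : ℚ_[p]) * (t : ℚ_[p]) ^ 4 := by
      rw [ht', div_pow, h]
      field_simp
    have hn : ‖N / M ^ 2‖ ≤ 1 := by
      apply hint
      rw [hn2]
      have : ((d : ℚ_[p]) + (a : ℚ_[p]) * (t : ℚ_[p]) ^ 2 + (c : ℚ_[p]) * (t : ℚ_[p]) ^ 4) =
          (((d : ℤ_[p]) + (a : ℤ_[p]) * t ^ 2 + (c : ℤ_[p]) * t ^ 4 : ℤ_[p]) : ℚ_[p]) := by
        push_cast; ring
      rw [this]
      exact PadicInt.norm_le_one _
    obtain ⟨n, hn'⟩ := mk_int hn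
    refine ⟨t, n, ?_⟩
    apply Subtype.coe_injective
    push_cast
    rw [hn', hn2]
  · right
    have he : e ≠ 0 := by
      rintro rfl
      rw [norm_zero] at hlt
      exact absurd hlt (not_lt.mpr (norm_nonneg _))
    have ht1 : ‖M / e‖ < 1 := by
      rw [norm_div]
      exact (div_lt_one (norm_pos_iff.mpr he)).mpr hlt
    obtain ⟨t, ht'⟩ := mk_int ht1.le
    have hn2 : (N / e ^ 2) ^ 2 = (d : ℚ_[p]) * (t : ℚ_[p]) ^ 4 + (a : ℚ_[p]) * (t : ℚ_[p]) ^ 2 +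
        (c : ℚ_[p]) := by
      rw [ht', div_pow, h]
      field_simp
    have hn : ‖N / e ^ 2‖ ≤ 1 := by
      apply hint
      rw [hn2]
      have : ((d : ℚ_[p]) * (t : ℚ_[p]) ^ 4 + (a : ℚ_[p]) * (t : ℚ_[p]) ^ 2 + (c : ℚ_[p])) =
          (((d : ℤ_[p]) * t ^ 4 + (a : ℤ_[p]) * t ^ 2 + (c : ℤ_[p]) : ℤ_[p]) : ℚ_[p]) := by
        push_cast; ring
      rw [this]
      exact PadicInt.norm_le_one _
    obtain ⟨n, hn'⟩ := mk_int hn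
    refine ⟨t, n, ?_, ?_⟩
    · rw [← PadicInt.norm_lt_one_iff_dvd]
      rw [PadicInt.norm_def, ht']
      exact ht1
    · apply Subtype.coe_injective
      push_cast
      rw [hn', hn2]

theorem dvd_int_iff {x : ℤ} : (p : ℤ_[p]) ∣ (x : ℤ_[p]) ↔ (p : ℤ) ∣ x := by
  have := PadicInt.pow_p_dvd_int_iff (p := p) 1 x
  simpa using this

theorem dvd_sq_int_iff {x : ℤ} : (p : ℤ_[p]) ^ 2 ∣ (x : ℤ_[p]) ↔ (p : ℤ) ^ 2 ∣ x := by
  have := PadicInt.pow_p_dvd_int_iff (p := p) 2 x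
  simpa using this

theorem toZMod_eq_zero {x : ℤ_[p]} : PadicInt.toZMod x = 0 ↔ (p : ℤ_[p]) ∣ x := by
  rw [← RingHom.mem_ker, PadicInt.ker_toZMod, PadicInt.maximalIdeal_eq_span_p,
    Ideal.mem_span_singleton]

/-- If `p ∣ a`, `p` divides `c` exactly once, and the quartic `N² = d M⁴ + a M² e² + c e⁴` has a
`p`-adic point, then `d` is a square modulo `p`. -/
theorem isSquare_of_sol {a c d : ℤ} (ha : (p : ℤ) ∣ a) (hc : (p : ℤ) ∣ c) (hc2 : ¬ (p : ℤ) ^ 2 ∣ c)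
    (h : ∃ N M e : ℚ_[p], (M ≠ 0 ∨ e ≠ 0) ∧
      N ^ 2 = (d : ℚ_[p]) * M ^ 4 + (a : ℚ_[p]) * M ^ 2 * e ^ 2 + (c : ℚ_[p]) * e ^ 4) :
    IsSquare (d : ZMod p) := by
  obtain ⟨N, M, e, h0, h1⟩ := h
  rcases norm_form h0 h1 with ⟨t, n, h2⟩ | ⟨t, n, ht, h2⟩
  · have h3 := congrArg (PadicInt.toZMod (p := p)) h2
    simp only [map_pow, map_add, map_mul, map_intCast] at h3
    have ha' : (a : ZMod p) = 0 := (ZMod.intCast_zmod_eq_zero_iff_dvd a p).mpr (by exact_mod_cast ha)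
    have hc' : (c : ZMod p) = 0 := (ZMod.intCast_zmod_eq_zero_iff_dvd c p).mpr (by exact_mod_cast hc)
    rw [ha', hc'] at h3
    exact ⟨PadicInt.toZMod n, by rw [← sq, h3]; ring⟩
  · exfalso
    have hpp : Prime (p : ℤ_[p]) := PadicInt.prime_p
    obtain ⟨u, rfl⟩ := ht
    have hn : (p : ℤ_[p]) ∣ n := by
      apply hpp.dvd_of_dvd_pow (n := 2)
      rw [h2]
      refine dvd_add (dvd_add ?_ ?_) (dvd_int_iff.mpr hc)
      · exact Dvd.dvd.mul_left (dvd_pow (dvd_mul_right _ _) (by norm_num)) _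
      · exact Dvd.dvd.mul_left (dvd_pow (dvd_mul_right _ _) (by norm_num)) _
    obtain ⟨m, rfl⟩ := hn
    apply hc2
    rw [← dvd_sq_int_iff (p := p)]
    refine ⟨m ^ 2 - (d : ℤ_[p]) * (p : ℤ_[p]) ^ 2 * u ^ 4 - (a : ℤ_[p]) * u ^ 2, ?_⟩
    linear_combination (-1 : ℤ_[p]) * h2

/-- If `p ∤ 2ad`, `p` divides `a² - 4dc` exactly once, and the quartic
`N² = d M⁴ + a M² e² + c e⁴` has a `p`-adic point, then `d` is a square modulo `p`. -/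
theorem isSquare_of_sol' {a c d : ℤ} (h2d : ¬ (p : ℤ) ∣ 2 * d) (ha : ¬ (p : ℤ) ∣ a)
    (hD : (p : ℤ) ∣ a ^ 2 - 4 * (d * c)) (hD2 : ¬ (p : ℤ) ^ 2 ∣ a ^ 2 - 4 * (d * c))
    (h : ∃ N M e : ℚ_[p], (M ≠ 0 ∨ e ≠ 0) ∧
      N ^ 2 = (d : ℚ_[p]) * M ^ 4 + (a : ℚ_[p]) * M ^ 2 * e ^ 2 + (c : ℚ_[p]) * e ^ 4) :
    IsSquare (d : ZMod p) := by
  have hpp : Prime (p : ℤ_[p]) := PadicInt.prime_p
  have h2 : ¬ (p : ℤ) ∣ 2 := fun h => h2d (Dvd.dvd.mul_right h d)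
  have hd : ¬ (p : ℤ) ∣ d := fun h => h2d (Dvd.dvd.mul_left h 2)
  have h2' : (2 : ZMod p) ≠ 0 := by
    intro h
    apply h2
    have : ((2 : ℤ) : ZMod p) = 0 := by push_cast; exact h
    exact_mod_cast (ZMod.intCast_zmod_eq_zero_iff_dvd 2 p).mp this
  have hd' : (d : ZMod p) ≠ 0 := by
    intro h
    apply hd
    exact_mod_cast (ZMod.intCast_zmod_eq_zero_iff_dvd d p).mp h
  have hD' : ((a ^ 2 - 4 * (d * c) : ℤ) : ZMod p) = 0 :=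
    (ZMod.intCast_zmod_eq_zero_iff_dvd _ p).mpr (by exact_mod_cast hD)
  have hpD2 : ¬ (p : ℤ_[p]) ^ 2 ∣ ((a ^ 2 - 4 * (d * c) : ℤ) : ℤ_[p]) :=
    fun h => hD2 (dvd_sq_int_iff.mp h)
  -- common endgame
  have fin : ∀ (X n s : ℤ_[p]), 4 * (d : ℤ_[p]) * n ^ 2 =
      X ^ 2 - ((a ^ 2 - 4 * (d * c) : ℤ) : ℤ_[p]) * s → ¬ (p : ℤ_[p]) ∣ X →
      IsSquare (d : ZMod p) := by
    intro X n s hX hpX
    have h3 := congrArg (PadicInt.toZMod (p := p)) hX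
    rw [map_sub, map_mul, map_mul, map_mul, map_pow, map_pow, map_intCast, map_intCast, hD',
      zero_mul, sub_zero] at h3
    have h4 : PadicInt.toZMod (4 : ℤ_[p]) = (4 : ZMod p) := by
      have : (4 : ℤ_[p]) = ((4 : ℕ) : ℤ_[p]) := by norm_cast
      rw [this, map_natCast]; norm_cast
    rw [h4] at h3
    have hX0 : PadicInt.toZMod X ≠ 0 := fun h => hpX (toZMod_eq_zero.mp h)
    have hn0 : PadicInt.toZMod n ≠ 0 := by
      intro h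
      rw [h] at h3
      apply hX0
      have : PadicInt.toZMod X ^ 2 = 0 := by rw [← h3]; ring
      exact pow_eq_zero_iff (two_ne_zero) |>.mp this
    refine ⟨PadicInt.toZMod X / (2 * PadicInt.toZMod n), ?_⟩
    rw [div_mul_div_comm, eq_div_iff (mul_ne_zero (mul_ne_zero h2' hn0) (mul_ne_zero h2' hn0))]
    linear_combination h3
  obtain ⟨N, M, e, h0, h1⟩ := h
  rcases norm_form h0 h1 with ⟨t, n, h3⟩ | ⟨t, n, ht, h3⟩
  · have key : 4 * (d : ℤ_[p]) * n ^ 2 = (2 * (d : ℤ_[p]) + (a : ℤ_[p]) * t ^ 2) ^ 2 -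
        ((a ^ 2 - 4 * (d * c) : ℤ) : ℤ_[p]) * t ^ 4 := by
      rw [h3]; push_cast; ring
    by_cases hX : (p : ℤ_[p]) ∣ 2 * (d : ℤ_[p]) + (a : ℤ_[p]) * t ^ 2
    · exfalso
      have hpt : ¬ (p : ℤ_[p]) ∣ t := by
        intro ht
        apply h2d
        rw [← dvd_int_iff (p := p)]
        have : ((2 * d : ℤ) : ℤ_[p]) = (2 * (d : ℤ_[p]) + (a : ℤ_[p]) * t ^ 2) -
            (a : ℤ_[p]) * t ^ 2 := by push_cast; ring
        rw [this]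
        exact dvd_sub hX (Dvd.dvd.mul_left (dvd_pow ht two_ne_zero) _)
      have hn : (p : ℤ_[p]) ∣ n := by
        have h5 : (p : ℤ_[p]) ∣ ((2 : ℤ) : ℤ_[p]) * (((2 * d : ℤ) : ℤ_[p]) * n ^ 2) := by
          have : ((2 : ℤ) : ℤ_[p]) * (((2 * d : ℤ) : ℤ_[p]) * n ^ 2) = 4 * (d : ℤ_[p]) * n ^ 2 := by
            push_cast; ring
          rw [this, key]
          exact dvd_sub (dvd_pow hX two_ne_zero)
            (Dvd.dvd.mul_right (dvd_int_iff.mpr hD) _)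
        rcases hpp.dvd_or_dvd h5 with h5 | h5
        · exact absurd (dvd_int_iff.mp h5) h2
        · rcases hpp.dvd_or_dvd h5 with h5 | h5
          · exact absurd (dvd_int_iff.mp h5) h2d
          · exact hpp.dvd_of_dvd_pow h5
      obtain ⟨m, rfl⟩ := hn
      obtain ⟨x, hx⟩ := hX
      rw [hx] at key
      have h6 : (p : ℤ_[p]) ^ 2 ∣ ((a ^ 2 - 4 * (d * c) : ℤ) : ℤ_[p]) * t ^ 4 :=
        ⟨x ^ 2 - 4 * (d : ℤ_[p]) * m ^ 2, by linear_combination key⟩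
      have h7 : (p : ℤ_[p]) ^ 2 ∣ ((a ^ 2 - 4 * (d * c) : ℤ) : ℤ_[p]) :=
        hpp.pow_dvd_of_dvd_mul_right 2 (fun h => hpt (hpp.dvd_of_dvd_pow h)) h6
      exact hpD2 h7
    · exact fin _ _ _ key hX
  · have key : 4 * (d : ℤ_[p]) * n ^ 2 = (2 * (d : ℤ_[p]) * t ^ 2 + (a : ℤ_[p])) ^ 2 -
        ((a ^ 2 - 4 * (d * c) : ℤ) : ℤ_[p]) * 1 := by
      rw [h3]; push_cast; ring
    refine fin _ _ _ key ?_
    intro hX
    apply ha
    rw [← dvd_int_iff (p := p)]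
    have : (a : ℤ_[p]) = (2 * (d : ℤ_[p]) * t ^ 2 + (a : ℤ_[p])) - 2 * (d : ℤ_[p]) * t ^ 2 := by
      ring
    rw [this]
    exact dvd_sub hX (Dvd.dvd.mul_left (dvd_pow ht two_ne_zero) _)

end

end Pool.Agent.H35
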