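import Pool.Agent.H35.SelCond

/-!
# The rank three family: `y² = x³ - 100pq x² + 4pq(2p+q)(81p+128q) x`
-/

namespace Pool.Agent.H35.Fam3

open Pool.Agent.H23 Pool.Agent.H35

/-- Numerical facts on the four primes and `T = 9p - 8q`. -/
structure Data (p q R S t : ℕ) (T : ℤ) : Prop where
  hp : p.Prime
  hq : q.Prime
  hR : R.Prime
  hS : S.Prime
  ht : t.Prime
  p2 : p % 2 = 1
  q2 : q % 2 = 1
  eR : R = 2 * p + q
  eS : S = 81 * p + 128 * q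
  eT : T = 9 * (p : ℤ) - 8 * q
  et : T.natAbs = t

namespace Data

variable {p q R S t : ℕ} {T : ℤ}

theorem p_ge (D : Data p q R S t T) : 3 ≤ p := by
  have h1 := D.hp.two_le
  have h2 := D.p2
  omega

theorem q_ge (D : Data p q R S t T) : 3 ≤ q := by
  have h1 := D.hq.two_le
  have h2 := D.q2
  omega

theorem p_ne_q (D : Data p q R S t T) : p ≠ q := by
  intro h
  have h1 := D.hR
  have h2 := D.eR
  rw [← h] at h2
  have h3 : R = 3 * p := by omega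
  rw [h3] at h1
  have h4 := D.p_ge
  exact Nat.not_prime_mul (by norm_num) (by omega) h1

theorem q_ne_three (D : Data p q R S t T) : q ≠ 3 := by
  intro h
  have h1 := D.ht
  have h2 := D.eT
  have h3 := D.et
  subst h
  have h4 : T = 3 * (3 * (p : ℤ) - 8) := by rw [h2]; push_cast; ring
  have h5 : t = 3 * (3 * (p : ℤ) - 8).natAbs := by
    rw [← h3, h4, Int.natAbs_mul]; rfl
  have h6 : (3 * (p : ℤ) - 8).natAbs = 1 := by
    by_contra hne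
    rw [h5] at h1
    exact Nat.not_prime_mul (by norm_num) hne h1
  have h7 := D.p_ne_q
  have h8 := D.p_ge
  omega

theorem q_ge' (D : Data p q R S t T) : 5 ≤ q := by
  have h1 := D.q_ge
  have h2 := D.q2
  have h3 := D.q_ne_three
  omega

theorem R_ge (D : Data p q R S t T) : 11 ≤ R := by
  have h1 := D.q_ge'
  have h2 := D.p_ge
  have h3 := D.eR
  omega

theorem S_gt_R (D : Data p q R S t T) : 200 < S ∧ R < S ∧ p < R ∧ q < R := by
  have h1 := D.q_ge'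
  have h2 := D.p_ge
  have h3 := D.eR
  have h4 := D.eS
  omega

theorem ndvd_of_lt {m n : ℕ} (h0 : 0 < m) (h : m < n) : ¬ (n : ℤ) ∣ (m : ℤ) := by
  intro h'
  have := Nat.le_of_dvd h0 (Int.natCast_dvd_natCast.mp h')
  omega

theorem ndvd_prime {m n : ℕ} (hm : m.Prime) (hn : n.Prime) (h : n ≠ m) : ¬ (n : ℤ) ∣ (m : ℤ) := by
  intro h'
  have := (Nat.prime_dvd_prime_iff_eq hn hm).mp (Int.natCast_dvd_natCast.mp h')
  exact h this

theorem dvd_mul_int {n : ℕ} (hn : n.Prime) {x y : ℤ} : (n : ℤ) ∣ x * y ↔ (n : ℤ) ∣ x ∨ (n : ℤ) ∣ y :=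
  (Nat.prime_iff_prime_int.mp hn).dvd_mul

theorem ndvd_two {n : ℕ} (h : 3 ≤ n) : ¬ (n : ℤ) ∣ 2 := ndvd_of_lt (m := 2) (by norm_num) h

/-- `T` is not divisible by `p`. -/
theorem p_ndvd_T (D : Data p q R S t T) : ¬ (p : ℤ) ∣ T := by
  intro h
  have h1 : (p : ℤ) ∣ 2 * (2 * (2 * q)) := by
    have : (2 * (2 * (2 * q)) : ℤ) = 9 * p - T := by rw [D.eT]; ring
    rw [this]
    exact dvd_sub (dvd_mul_left _ _) h
  have h2 := ndvd_two D.p_ge
  have h3 := ndvd_prime D.hq D.hp D.p_ne_q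
  simp only [dvd_mul_int D.hp] at h1
  tauto

/-- `T` is not divisible by `q`. -/
theorem q_ndvd_T (D : Data p q R S t T) : ¬ (q : ℤ) ∣ T := by
  intro h
  have h1 : (q : ℤ) ∣ 3 * (3 * p) := by
    have : (3 * (3 * p) : ℤ) = T + 8 * q := by rw [D.eT]; ring
    rw [this]
    exact dvd_add h (dvd_mul_left _ _)
  have h2 : ¬ (q : ℤ) ∣ 3 := ndvd_of_lt (m := 3) (by norm_num) (by have := D.q_ge'; omega)
  have h3 := ndvd_prime D.hp D.hq D.p_ne_q.symm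
  simp only [dvd_mul_int D.hq] at h1
  tauto

theorem R_ndvd_T (D : Data p q R S t T) : ¬ (R : ℤ) ∣ T := by
  intro h
  have h1 : (R : ℤ) ∣ 5 * (5 * p) := by
    have : (5 * (5 * p) : ℤ) = T + 8 * R := by rw [D.eT, D.eR]; push_cast; ring
    rw [this]
    exact dvd_add h (dvd_mul_left _ _)
  have h4 := D.R_ge
  have h2 : ¬ (R : ℤ) ∣ 5 := ndvd_of_lt (m := 5) (by norm_num) (by omega)
  have h3 := ndvd_prime D.hp D.hR (by have := D.S_gt_R; omega)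
  simp only [dvd_mul_int D.hR] at h1
  tauto

theorem S_ndvd_T (D : Data p q R S t T) : ¬ (S : ℤ) ∣ T := by
  intro h
  have h1 : (S : ℤ) ∣ 2 * (2 * (2 * (5 * (5 * q)))) := by
    have : (2 * (2 * (2 * (5 * (5 * q)))) : ℤ) = S - 9 * T := by rw [D.eT, D.eS]; push_cast; ring
    rw [this]
    exact dvd_sub (dvd_refl _) (Dvd.dvd.mul_left h _)
  have h4 := D.S_gt_R
  have h2 : ¬ (S : ℤ) ∣ 5 := ndvd_of_lt (m := 5) (by norm_num) (by omega)
  have h2' : ¬ (S : ℤ) ∣ 2 := ndvd_of_lt (m := 2) (by norm_num) (by omega)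
  have h3 := ndvd_prime D.hq D.hS (by omega)
  simp only [dvd_mul_int D.hS] at h1
  tauto

theorem T_ne (D : Data p q R S t T) : T ≠ 0 := by
  rintro rfl
  exact D.p_ndvd_T (dvd_zero _)

theorem dvd_T (D : Data p q R S t T) : (t : ℤ) ∣ T := by
  rw [← D.et]
  exact Int.natAbs_dvd.mpr dvd_rfl

theorem t_ne_p (D : Data p q R S t T) : t ≠ p := by
  rintro rfl
  exact D.p_ndvd_T D.dvd_T

theorem t_ne_q (D : Data p q R S t T) : t ≠ q := by
  rintro rfl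
  exact D.q_ndvd_T D.dvd_T

theorem t_ne_two (D : Data p q R S t T) : t ≠ 2 := by
  have h1 := D.et
  have h2 := D.eT
  have h3 := D.p2
  omega

/-- `a` and `b`. -/
theorem b_ne (D : Data p q R S t T) : (4 * p * q * R * S : ℤ) ≠ 0 := by
  have h1 : (p : ℤ) ≠ 0 := by exact_mod_cast D.hp.ne_zero
  have h2 : (q : ℤ) ≠ 0 := by exact_mod_cast D.hq.ne_zero
  have h3 : (R : ℤ) ≠ 0 := by exact_mod_cast D.hR.ne_zero
  have h4 : (S : ℤ) ≠ 0 := by exact_mod_cast D.hS.ne_zero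
  positivity

theorem b'_eq (D : Data p q R S t T) :
    (-100 * p * q : ℤ) ^ 2 - 4 * (4 * p * q * R * S) = -32 * p * q * T ^ 2 := by
  rw [D.eR, D.eS, D.eT]; push_cast; ring

theorem b'_ne (D : Data p q R S t T) : (-32 * p * q * T ^ 2 : ℤ) ≠ 0 := by
  have h1 : (p : ℤ) ≠ 0 := by exact_mod_cast D.hp.ne_zero
  have h2 : (q : ℤ) ≠ 0 := by exact_mod_cast D.hq.ne_zero
  have h3 := D.T_ne
  exact mul_ne_zero (mul_ne_zero (mul_ne_zero (by norm_num) h1) h2) (pow_ne_zero _ h3)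

end Data

/-! ### Shape of squarefree divisors -/

theorem shape0 {p q R S t : ℕ} {T : ℤ} (D : Data p q R S t T) {d : ℤ} (hsq : Squarefree d)
    (hd : d ∣ 4 * p * q * R * S) (hpos : 0 < d) :
    ∃ i j k l m : ℕ, i < 2 ∧ j < 2 ∧ k < 2 ∧ l < 2 ∧ m < 2 ∧
      d = 2 ^ i * (p : ℤ) ^ j * (q : ℤ) ^ k * (R : ℤ) ^ l * (S : ℤ) ^ m := by
  obtain ⟨n, rfl⟩ := Int.eq_ofNat_of_zero_le hpos.le
  have hn : Squarefree n := by
    rw [← Int.squarefree_natAbs] at hsq; simpa using hsq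
  have h0 : n ∣ 2 ^ 2 * (p ^ 1 * (q ^ 1 * (R ^ 1 * (S ^ 1 * 1)))) := by
    have : ((2 ^ 2 * (p ^ 1 * (q ^ 1 * (R ^ 1 * (S ^ 1 * 1)))) : ℕ) : ℤ) = 4 * p * q * R * S := by
      push_cast; ring
    rw [← this] at hd
    exact Int.natCast_dvd_natCast.mp hd
  obtain ⟨i, n1, hi, e1, h1, s1⟩ := sqf_step hn Nat.prime_two h0
  obtain ⟨j, n2, hj, e2, h2, s2⟩ := sqf_step s1 D.hp h1
  obtain ⟨k, n3, hk, e3, h3, s3⟩ := sqf_step s2 D.hq h2
  obtain ⟨l, n4, hl, e4, h4, s4⟩ := sqf_step s3 D.hR h3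
  obtain ⟨m, n5, hm, e5, h5, s5⟩ := sqf_step s4 D.hS h4
  have h6 : n5 = 1 := Nat.dvd_one.mp h5
  refine ⟨i, j, k, l, m, hi, hj, hk, hl, hm, ?_⟩
  rw [e1, e2, e3, e4, e5, h6]
  push_cast
  ring

theorem shape1 {p q R S t : ℕ} {T : ℤ} (D : Data p q R S t T) {d : ℤ} (hsq : Squarefree d)
    (hd : d ∣ -32 * p * q * T ^ 2) :
    ∃ s i j k l : ℕ, s < 2 ∧ i < 2 ∧ j < 2 ∧ k < 2 ∧ l < 2 ∧
      d = (-1) ^ s * 2 ^ i * (p : ℤ) ^ j * (q : ℤ) ^ k * T ^ l := by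
  have hn : Squarefree d.natAbs := Int.squarefree_natAbs.mpr hsq
  have h0 : d.natAbs ∣ 2 ^ 5 * (p ^ 1 * (q ^ 1 * (t ^ 2 * 1))) := by
    have : (2 ^ 5 * (p ^ 1 * (q ^ 1 * (t ^ 2 * 1))) : ℕ) = (-32 * p * q * T ^ 2 : ℤ).natAbs := by
      rw [Int.natAbs_mul, Int.natAbs_mul, Int.natAbs_mul, Int.natAbs_pow, D.et]
      simp
      ring
    rw [this]
    exact Int.natAbs_dvd_natAbs.mpr hd
  obtain ⟨i, n1, hi, e1, h1, s1⟩ := sqf_step hn Nat.prime_two h0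
  obtain ⟨j, n2, hj, e2, h2, s2⟩ := sqf_step s1 D.hp h1
  obtain ⟨k, n3, hk, e3, h3, s3⟩ := sqf_step s2 D.hq h2
  obtain ⟨l, n4, hl, e4, h4, s4⟩ := sqf_step s3 D.ht h3
  have h6 : n4 = 1 := Nat.dvd_one.mp h4
  have h7 : d.natAbs = (2 ^ i * (p : ℤ) ^ j * (q : ℤ) ^ k * T ^ l).natAbs := by
    rw [e1, e2, e3, e4, h6, Int.natAbs_mul, Int.natAbs_mul, Int.natAbs_mul, Int.natAbs_pow,
      Int.natAbs_pow, Int.natAbs_pow, Int.natAbs_pow, D.et]
    simp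
    ring
  rcases Int.natAbs_eq_natAbs_iff.mp h7 with h | h
  · exact ⟨0, i, j, k, l, by norm_num, hi, hj, hk, hl, by rw [h]; ring⟩
  · exact ⟨1, i, j, k, l, by norm_num, hi, hj, hk, hl, by rw [h]; ring⟩

end Pool.Agent.H35.Fam3
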