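import Pool.Agent.H35.Fam3

/-!
# The rank three family: Legendre symbols and local conditions
-/

namespace Pool.Agent.H35.Fam3

open Pool.Agent.H23 Pool.Agent.H35

variable {p q R S t : ℕ} {T : ℤ}

section symbols

variable [Fact p.Prime] [Fact q.Prime] [Fact R.Prime] [Fact S.Prime]

theorem lpR (D : Data p q R S t T) : legendreSym p R = legendreSym p q :=
  leg_congr ⟨2, by rw [D.eR]; push_cast; ring⟩

theorem lpS (D : Data p q R S t T) :
    legendreSym p S = legendreSym p 2 * legendreSym p q := by
  have h : legendreSym p S = legendreSym p (2 ^ 7 * q) :=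
    leg_congr ⟨81, by rw [D.eS]; push_cast; ring⟩
  have h2 := leg_sq (p := p) (Data.ndvd_two D.p_ge)
  rw [h, legendreSym.mul, leg_pow]
  linear_combination (legendreSym p 2 * legendreSym p q) *
    ((legendreSym p 2 * legendreSym p 2) ^ 2 + legendreSym p 2 * legendreSym p 2 + 1) * h2

theorem lpT (D : Data p q R S t T) :
    legendreSym p T = legendreSym p (-1) * legendreSym p 2 * legendreSym p q := by
  have h : legendreSym p T = legendreSym p (-1 * 2 ^ 3 * q) :=
    leg_congr ⟨9, by rw [D.eT]; push_cast; ring⟩
  have h2 := leg_sq (p := p) (Data.ndvd_two D.p_ge)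
  rw [h, legendreSym.mul, legendreSym.mul, leg_pow]
  linear_combination (legendreSym p (-1) * legendreSym p 2 * legendreSym p q) * h2

theorem lqR (D : Data p q R S t T) : legendreSym q R = legendreSym q 2 * legendreSym q p := by
  rw [← legendreSym.mul]
  exact leg_congr ⟨1, by rw [D.eR]; push_cast; ring⟩

theorem ndvd3 (D : Data p q R S t T) : ¬ (q : ℤ) ∣ 3 :=
  Data.ndvd_of_lt (m := 3) (by norm_num) (by have := D.q_ge'; omega)

theorem lqS (D : Data p q R S t T) : legendreSym q S = legendreSym q p := by
  have h : legendreSym q S = legendreSym q (3 ^ 4 * p) :=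
    leg_congr ⟨128, by rw [D.eS]; push_cast; ring⟩
  have h2 := leg_sq (p := q) (ndvd3 D)
  rw [h, legendreSym.mul, leg_pow]
  linear_combination (legendreSym q p) * (legendreSym q 3 * legendreSym q 3 + 1) * h2

theorem lqT (D : Data p q R S t T) : legendreSym q T = legendreSym q p := by
  have h : legendreSym q T = legendreSym q (3 ^ 2 * p) :=
    leg_congr ⟨-8, by rw [D.eT]; push_cast; ring⟩
  have h2 := leg_sq (p := q) (ndvd3 D)
  rw [h, legendreSym.mul, leg_pow]
  linear_combination (legendreSym q p) * h2

theorem lRT (D : Data p q R S t T) : legendreSym R T = legendreSym R p := by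
  have h : legendreSym R T = legendreSym R (5 ^ 2 * p) :=
    leg_congr ⟨-8, by rw [D.eT, D.eR]; push_cast; ring⟩
  have h2 := leg_sq (p := R) (d := 5)
    (Data.ndvd_of_lt (m := 5) (by norm_num) (by have := D.R_ge; omega))
  rw [h, legendreSym.mul, leg_pow]
  linear_combination (legendreSym R p) * h2

theorem lST (D : Data p q R S t T) :
    legendreSym S T = legendreSym S (-1) * legendreSym S 2 * legendreSym S q := by
  have hS := D.S_gt_R
  have h : legendreSym S (3 ^ 2 * T) = legendreSym S (-1 * 2 ^ 3 * 5 ^ 2 * q) :=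
    leg_congr ⟨1, by rw [D.eT, D.eS]; push_cast; ring⟩
  have h2 := leg_sq (p := S) (d := 2) (Data.ndvd_of_lt (m := 2) (by norm_num) (by omega))
  have h3 := leg_sq (p := S) (d := 3) (Data.ndvd_of_lt (m := 3) (by norm_num) (by omega))
  have h5 := leg_sq (p := S) (d := 5) (Data.ndvd_of_lt (m := 5) (by norm_num) (by omega))
  rw [legendreSym.mul, legendreSym.mul, legendreSym.mul, legendreSym.mul, leg_pow, leg_pow,
    leg_pow] at h
  rw [sq, h3, one_mul] at h
  rw [h]
  linear_combination (legendreSym S (-1) * legendreSym S 2 * legendreSym S q) * (h2 +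
    (legendreSym S 2) ^ 2 * h5)

end symbols

end Pool.Agent.H35.Fam3
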