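import Pool.Agent.H35.Fam3b

/-!
# The rank three family: conditions on the exponents
-/

namespace Pool.Agent.H35.Fam3

open Pool.Agent.H23 Pool.Agent.H35

variable {p q R S t : ℕ} {T : ℤ}

theorem ndvd_mul {n : ℕ} [hn : Fact n.Prime] {x y : ℤ} (hx : ¬ (n : ℤ) ∣ x) (hy : ¬ (n : ℤ) ∣ y) :
    ¬ (n : ℤ) ∣ x * y := by
  rw [(Nat.prime_iff_prime_int.mp hn.out).dvd_mul]
  tauto

theorem ndvd_pow {n : ℕ} [hn : Fact n.Prime] {x : ℤ} (k : ℕ) (hx : ¬ (n : ℤ) ∣ x) :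
    ¬ (n : ℤ) ∣ x ^ k := fun h =>
  hx ((Nat.prime_iff_prime_int.mp hn.out).dvd_of_dvd_pow h)

theorem ndvd_neg_one {n : ℕ} [hn : Fact n.Prime] : ¬ (n : ℤ) ∣ -1 := by
  intro h
  have h1 : (n : ℤ) ∣ 1 := (dvd_neg.mp h)
  have h2 := Int.natCast_dvd_natCast.mp (by exact_mod_cast h1 : (n : ℤ) ∣ ((1 : ℕ) : ℤ))
  exact hn.out.one_lt.ne' (Nat.dvd_one.mp h2)

section conds

variable [hp : Fact p.Prime] [hq : Fact q.Prime] [hR : Fact R.Prime] [hS : Fact S.Prime]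

theorem c0p (D : Data p q R S t T) {i j k l m : ℕ} (hj : j < 2)
    (hd : (2 ^ i * (p : ℤ) ^ j * (q : ℤ) ^ k * (R : ℤ) ^ l * (S : ℤ) ^ m) ∈
      Sel (-100 * p * q) (4 * p * q * R * S)) :
    legendreSym p 2 ^ i * legendreSym p q ^ k * legendreSym p R ^ l * legendreSym p S ^ m *
      (legendreSym p q * legendreSym p R * legendreSym p S) ^ j = 1 := by
  have n2 := Data.ndvd_two D.p_ge
  have nq := Data.ndvd_prime D.hq D.hp D.p_ne_q
  have nR := Data.ndvd_prime D.hR D.hp (by have := D.S_gt_R; omega)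
  have nS := Data.ndvd_prime D.hS D.hp (by have := D.S_gt_R; omega)
  have n4 : ¬ (p : ℤ) ∣ 4 := by
    have : (4 : ℤ) = 2 * 2 := by norm_num
    rw [this]; exact ndvd_mul n2 n2
  have hw : ¬ (p : ℤ) ∣ 4 * q * R * S := ndvd_mul (ndvd_mul (ndvd_mul n4 nq) nR) nS
  have hx : ¬ (p : ℤ) ∣ 2 ^ i * (q : ℤ) ^ k * (R : ℤ) ^ l * (S : ℤ) ^ m :=
    ndvd_mul (ndvd_mul (ndvd_mul (ndvd_pow i n2) (ndvd_pow k nq)) (ndvd_pow l nR)) (ndvd_pow m nS)
  have ha : (p : ℤ) ∣ -100 * p * q := ⟨-100 * q, by ring⟩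
  have hb : (4 * p * q * R * S : ℤ) = p * (4 * q * R * S) := by ring
  interval_cases j
  · have h1 := cond_unit hd ha hb hw (by rw [pow_zero, mul_one]; exact hx)
    simp only [legendreSym.mul, leg_pow, pow_zero, mul_one] at h1 ⊢
    exact h1
  · have h1 := cond_mult hd ha hb hw (x := 2 ^ i * (q : ℤ) ^ k * (R : ℤ) ^ l * (S : ℤ) ^ m) (by ring)
    have h2 := leg_sq n2
    have e4 : legendreSym p 4 = 1 := by
      have : (4 : ℤ) = 2 * 2 := by norm_num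
      rw [this, legendreSym.mul, h2]
    simp only [legendreSym.mul, leg_pow, e4, one_mul, pow_one] at h1 ⊢
    exact h1

theorem c0q (D : Data p q R S t T) {i j k l m : ℕ} (hk : k < 2)
    (hd : (2 ^ i * (p : ℤ) ^ j * (q : ℤ) ^ k * (R : ℤ) ^ l * (S : ℤ) ^ m) ∈
      Sel (-100 * p * q) (4 * p * q * R * S)) :
    legendreSym q 2 ^ i * legendreSym q p ^ j * legendreSym q R ^ l * legendreSym q S ^ m *
      (legendreSym q p * legendreSym q R * legendreSym q S) ^ k = 1 := by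
  have n2 := Data.ndvd_two D.q_ge
  have nq := Data.ndvd_prime D.hp D.hq D.p_ne_q.symm
  have nR := Data.ndvd_prime D.hR D.hq (by have := D.S_gt_R; omega)
  have nS := Data.ndvd_prime D.hS D.hq (by have := D.S_gt_R; omega)
  have n4 : ¬ (q : ℤ) ∣ 4 := by
    have : (4 : ℤ) = 2 * 2 := by norm_num
    rw [this]; exact ndvd_mul n2 n2
  have hw : ¬ (q : ℤ) ∣ 4 * p * R * S := ndvd_mul (ndvd_mul (ndvd_mul n4 nq) nR) nS
  have hx : ¬ (q : ℤ) ∣ 2 ^ i * (p : ℤ) ^ j * (R : ℤ) ^ l * (S : ℤ) ^ m :=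
    ndvd_mul (ndvd_mul (ndvd_mul (ndvd_pow i n2) (ndvd_pow j nq)) (ndvd_pow l nR)) (ndvd_pow m nS)
  have ha : (q : ℤ) ∣ -100 * p * q := ⟨-100 * p, by ring⟩
  have hb : (4 * p * q * R * S : ℤ) = q * (4 * p * R * S) := by ring
  interval_cases k
  · have h1 := cond_unit hd ha hb hw (by rw [pow_zero, mul_one]; exact hx)
    simp only [legendreSym.mul, leg_pow, pow_zero, mul_one] at h1 ⊢
    exact h1
  · have h1 := cond_mult hd ha hb hw (x := 2 ^ i * (p : ℤ) ^ j * (R : ℤ) ^ l * (S : ℤ) ^ m) (by ring)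
    have h2 := leg_sq n2
    have e4 : legendreSym q 4 = 1 := by
      have : (4 : ℤ) = 2 * 2 := by norm_num
      rw [this, legendreSym.mul, h2]
    simp only [legendreSym.mul, leg_pow, e4, one_mul, pow_one] at h1 ⊢
    exact h1

theorem c1p (D : Data p q R S t T) {s i j k l : ℕ} (hj : j < 2)
    (hd : ((-1) ^ s * 2 ^ i * (p : ℤ) ^ j * (q : ℤ) ^ k * T ^ l) ∈
      Sel (200 * p * q) (-32 * p * q * T ^ 2)) :
    legendreSym p (-1) ^ s * legendreSym p 2 ^ i * legendreSym p q ^ k * legendreSym p T ^ l *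
      (legendreSym p (-1) * legendreSym p 2 * legendreSym p q) ^ j = 1 := by
  have n1 := ndvd_neg_one (n := p)
  have n2 := Data.ndvd_two D.p_ge
  have nq := Data.ndvd_prime D.hq D.hp D.p_ne_q
  have nT := D.p_ndvd_T
  have n32 : ¬ (p : ℤ) ∣ -32 := by
    have : (-32 : ℤ) = -1 * 2 ^ 5 := by norm_num
    rw [this]; exact ndvd_mul n1 (ndvd_pow 5 n2)
  have hw : ¬ (p : ℤ) ∣ -32 * q * T ^ 2 := ndvd_mul (ndvd_mul n32 nq) (ndvd_pow 2 nT)
  have hx : ¬ (p : ℤ) ∣ (-1) ^ s * 2 ^ i * (q : ℤ) ^ k * T ^ l :=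
    ndvd_mul (ndvd_mul (ndvd_mul (ndvd_pow s n1) (ndvd_pow i n2)) (ndvd_pow k nq)) (ndvd_pow l nT)
  have ha : (p : ℤ) ∣ 200 * p * q := ⟨200 * q, by ring⟩
  have hb : (-32 * p * q * T ^ 2 : ℤ) = p * (-32 * q * T ^ 2) := by ring
  interval_cases j
  · have h1 := cond_unit hd ha hb hw (by rw [pow_zero, mul_one]; exact hx)
    simp only [legendreSym.mul, leg_pow, pow_zero, mul_one] at h1 ⊢
    exact h1
  · have h1 := cond_mult hd ha hb hw (x := (-1) ^ s * 2 ^ i * (q : ℤ) ^ k * T ^ l) (by ring)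
    have h2 := leg_sq n2
    have h3 := leg_sq nT
    have e4 : legendreSym p (-32) = legendreSym p (-1) * legendreSym p 2 := by
      have : (-32 : ℤ) = -1 * (2 * 2) * (2 * 2) * 2 := by norm_num
      rw [this]; simp only [legendreSym.mul, h2]; ring
    have e5 : legendreSym p T ^ 2 = 1 := by rw [sq]; exact h3
    simp only [legendreSym.mul, leg_pow, e4, e5, mul_one, pow_one] at h1 ⊢
    exact h1

theorem c1q (D : Data p q R S t T) {s i j k l : ℕ} (hk : k < 2)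
    (hd : ((-1) ^ s * 2 ^ i * (p : ℤ) ^ j * (q : ℤ) ^ k * T ^ l) ∈
      Sel (200 * p * q) (-32 * p * q * T ^ 2)) :
    legendreSym q (-1) ^ s * legendreSym q 2 ^ i * legendreSym q p ^ j * legendreSym q T ^ l *
      (legendreSym q (-1) * legendreSym q 2 * legendreSym q p) ^ k = 1 := by
  have n1 := ndvd_neg_one (n := q)
  have n2 := Data.ndvd_two D.q_ge
  have nq := Data.ndvd_prime D.hp D.hq D.p_ne_q.symm
  have nT := D.q_ndvd_T
  have n32 : ¬ (q : ℤ) ∣ -32 := by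
    have : (-32 : ℤ) = -1 * 2 ^ 5 := by norm_num
    rw [this]; exact ndvd_mul n1 (ndvd_pow 5 n2)
  have hw : ¬ (q : ℤ) ∣ -32 * p * T ^ 2 := ndvd_mul (ndvd_mul n32 nq) (ndvd_pow 2 nT)
  have hx : ¬ (q : ℤ) ∣ (-1) ^ s * 2 ^ i * (p : ℤ) ^ j * T ^ l :=
    ndvd_mul (ndvd_mul (ndvd_mul (ndvd_pow s n1) (ndvd_pow i n2)) (ndvd_pow j nq)) (ndvd_pow l nT)
  have ha : (q : ℤ) ∣ 200 * p * q := ⟨200 * p, by ring⟩
  have hb : (-32 * p * q * T ^ 2 : ℤ) = q * (-32 * p * T ^ 2) := by ring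
  interval_cases k
  · have h1 := cond_unit hd ha hb hw (by rw [pow_zero, mul_one]; exact hx)
    simp only [legendreSym.mul, leg_pow, pow_zero, mul_one] at h1 ⊢
    exact h1
  · have h1 := cond_mult hd ha hb hw (x := (-1) ^ s * 2 ^ i * (p : ℤ) ^ j * T ^ l) (by ring)
    have h2 := leg_sq n2
    have h3 := leg_sq nT
    have e4 : legendreSym q (-32) = legendreSym q (-1) * legendreSym q 2 := by
      have : (-32 : ℤ) = -1 * (2 * 2) * (2 * 2) * 2 := by norm_num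
      rw [this]; simp only [legendreSym.mul, h2]; ring
    have e5 : legendreSym q T ^ 2 = 1 := by rw [sq]; exact h3
    simp only [legendreSym.mul, leg_pow, e4, e5, mul_one, pow_one] at h1 ⊢
    exact h1

theorem c1R (D : Data p q R S t T) {s i j k l : ℕ}
    (hd : ((-1) ^ s * 2 ^ i * (p : ℤ) ^ j * (q : ℤ) ^ k * T ^ l) ∈
      Sel (200 * p * q) (-32 * p * q * T ^ 2)) :
    legendreSym R (-1) ^ s * legendreSym R 2 ^ i * legendreSym R p ^ j * legendreSym R q ^ k *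
      legendreSym R T ^ l = 1 := by
  have hlt := D.S_gt_R
  have hR11 := D.R_ge
  have n1 := ndvd_neg_one (n := R)
  have n2 : ¬ (R : ℤ) ∣ 2 := Data.ndvd_of_lt (m := 2) (by norm_num) (by omega)
  have n5 : ¬ (R : ℤ) ∣ 5 := Data.ndvd_of_lt (m := 5) (by norm_num) (by omega)
  have np := Data.ndvd_prime D.hp D.hR (by omega)
  have nq := Data.ndvd_prime D.hq D.hR (by omega)
  have nS := Data.ndvd_prime D.hS D.hR (by omega)
  have nT := D.R_ndvd_T
  have hx : ¬ (R : ℤ) ∣ (-1) ^ s * 2 ^ i * (p : ℤ) ^ j * (q : ℤ) ^ k * T ^ l :=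
    ndvd_mul (ndvd_mul (ndvd_mul (ndvd_mul (ndvd_pow s n1) (ndvd_pow i n2)) (ndvd_pow j np))
      (ndvd_pow k nq)) (ndvd_pow l nT)
  have e : (200 * p * q : ℤ) ^ 2 - 4 * (-32 * p * q * T ^ 2) = R * (2 ^ 6 * p * q * S) := by
    rw [D.eR, D.eS, D.eT]; push_cast; ring
  have h1 := cond_disc hd (ndvd_mul n2 hx) (by
      have : (200 * p * q : ℤ) = 2 ^ 3 * 5 ^ 2 * p * q := by norm_num
      rw [this]
      exact ndvd_mul (ndvd_mul (ndvd_mul (ndvd_pow 3 n2) (ndvd_pow 2 n5)) np) nq) (by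
      rw [e]; exact dvd_mul_right _ _) (by
      rw [e]
      rintro ⟨u, hu⟩
      have hR0 : (R : ℤ) ≠ 0 := by exact_mod_cast D.hR.ne_zero
      have h3 : (2 ^ 6 * p * q * S : ℤ) = R * u := by
        apply mul_left_cancel₀ hR0
        rw [hu]; ring
      exact ndvd_mul (ndvd_mul (ndvd_mul (ndvd_pow 6 n2) np) nq) nS ⟨u, h3⟩)
  simp only [legendreSym.mul, leg_pow] at h1
  exact h1

theorem c1S (D : Data p q R S t T) {s i j k l : ℕ}
    (hd : ((-1) ^ s * 2 ^ i * (p : ℤ) ^ j * (q : ℤ) ^ k * T ^ l) ∈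
      Sel (200 * p * q) (-32 * p * q * T ^ 2)) :
    legendreSym S (-1) ^ s * legendreSym S 2 ^ i * legendreSym S p ^ j * legendreSym S q ^ k *
      legendreSym S T ^ l = 1 := by
  have hlt := D.S_gt_R
  have hR11 := D.R_ge
  have n1 := ndvd_neg_one (n := S)
  have n2 : ¬ (S : ℤ) ∣ 2 := Data.ndvd_of_lt (m := 2) (by norm_num) (by omega)
  have n5 : ¬ (S : ℤ) ∣ 5 := Data.ndvd_of_lt (m := 5) (by norm_num) (by omega)
  have np := Data.ndvd_prime D.hp D.hS (by omega)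
  have nq := Data.ndvd_prime D.hq D.hS (by omega)
  have nR := Data.ndvd_prime D.hR D.hS (by omega)
  have nT := D.S_ndvd_T
  have hx : ¬ (S : ℤ) ∣ (-1) ^ s * 2 ^ i * (p : ℤ) ^ j * (q : ℤ) ^ k * T ^ l :=
    ndvd_mul (ndvd_mul (ndvd_mul (ndvd_mul (ndvd_pow s n1) (ndvd_pow i n2)) (ndvd_pow j np))
      (ndvd_pow k nq)) (ndvd_pow l nT)
  have e : (200 * p * q : ℤ) ^ 2 - 4 * (-32 * p * q * T ^ 2) = S * (2 ^ 6 * p * q * R) := by
    rw [D.eR, D.eS, D.eT]; push_cast; ring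
  have h1 := cond_disc hd (ndvd_mul n2 hx) (by
      have : (200 * p * q : ℤ) = 2 ^ 3 * 5 ^ 2 * p * q := by norm_num
      rw [this]
      exact ndvd_mul (ndvd_mul (ndvd_mul (ndvd_pow 3 n2) (ndvd_pow 2 n5)) np) nq) (by
      rw [e]; exact dvd_mul_right _ _) (by
      rw [e]
      rintro ⟨u, hu⟩
      have hS0 : (S : ℤ) ≠ 0 := by exact_mod_cast D.hS.ne_zero
      have h3 : (2 ^ 6 * p * q * R : ℤ) = S * u := by
        apply mul_left_cancel₀ hS0
        rw [hu]; ring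
      exact ndvd_mul (ndvd_mul (ndvd_mul (ndvd_pow 6 n2) np) nq) nR ⟨u, h3⟩)
  simp only [legendreSym.mul, leg_pow] at h1
  exact h1

end conds

/-- Elements of the first Selmer set are positive. -/
theorem sel_pos (D : Data p q R S t T) {d : ℤ}
    (hd : d ∈ Sel (-100 * p * q) (4 * p * q * R * S)) : 0 < d := by
  obtain ⟨hsq, ⟨c, hc⟩, ⟨N, M, e, h0, h1⟩, _⟩ := hd
  have hd0 : d ≠ 0 := hsq.ne_zero
  by_contra hneg
  have hneg : d < 0 := lt_of_le_of_ne (not_lt.mp hneg) hd0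
  have hp0 : (0 : ℤ) < p := by exact_mod_cast D.hp.pos
  have hq0 : (0 : ℤ) < q := by exact_mod_cast D.hq.pos
  have hR0 : (0 : ℤ) < R := by exact_mod_cast D.hR.pos
  have hS0 : (0 : ℤ) < S := by exact_mod_cast D.hS.pos
  have hb : (0 : ℤ) < 4 * p * q * R * S := by positivity
  have hc0 : c < 0 := by
    by_contra h
    push Not at h
    have : d * c ≤ 0 := mul_nonpos_of_nonpos_of_nonneg hneg.le h
    rw [← hc] at this
    omega
  have ha : (-100 * p * q : ℤ) < 0 := by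
    have : (0 : ℤ) < 100 * p * q := by positivity
    linarith
  rw [hc, Int.mul_ediv_cancel_left _ hd0] at h1
  have hdR : (d : ℝ) < 0 := by exact_mod_cast hneg
  have hcR : (c : ℝ) < 0 := by exact_mod_cast hc0
  have haR : ((-100 * p * q : ℤ) : ℝ) < 0 := by exact_mod_cast ha
  have e1 : (d : ℝ) * M ^ 4 ≤ 0 := mul_nonpos_of_nonpos_of_nonneg hdR.le (by positivity)
  have e2 : ((-100 * p * q : ℤ) : ℝ) * M ^ 2 * e ^ 2 ≤ 0 := by
    rw [mul_assoc]
    exact mul_nonpos_of_nonpos_of_nonneg haR.le (by positivity)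
  have e3 : (c : ℝ) * e ^ 4 ≤ 0 := mul_nonpos_of_nonpos_of_nonneg hcR.le (by positivity)
  have e4 : 0 ≤ N ^ 2 := sq_nonneg N
  rcases h0 with h0 | h0
  · have : (d : ℝ) * M ^ 4 < 0 := mul_neg_of_neg_of_pos hdR (by positivity)
    linarith
  · have : (c : ℝ) * e ^ 4 < 0 := mul_neg_of_neg_of_pos hcR (by positivity)
    linarith

end Pool.Agent.H35.Fam3
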