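import Pool.Agent.H35.Fam3c

/-!
# The rank three family: determination of the Selmer sets
-/

namespace Pool.Agent.H35.Fam3

open Pool.Agent.H23 Pool.Agent.H35

/-- Value of `(2 / n)` in terms of `n mod 8`. -/
def tw (r : ℕ) : ℤ := if r = 1 ∨ r = 7 then 1 else -1

/-- Value of `(-1 / n)` in terms of `n mod 8`. -/
def ng (r : ℕ) : ℤ := if r = 1 ∨ r = 5 then 1 else -1

/-- Reciprocity sign in terms of the residues modulo `8`. -/
def rc (r s : ℕ) : ℤ := if (r = 3 ∨ r = 7) ∧ (s = 3 ∨ s = 7) then -1 else 1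

/-- The residue classes of the theorem; `e` is the Legendre symbol `(p / q)`. -/
def Cls (P Q : ℕ) (e : ℤ) : Prop :=
  ((P, Q) ∈ [(3, 5), (5, 3), (5, 5)] ∧ (e = 1 ∨ e = -1)) ∨
  ((P, Q) ∈ [(1, 3), (1, 5), (3, 1), (5, 1), (3, 7), (5, 7), (7, 5)] ∧ e = -1) ∨
  ((P, Q) = (7, 3) ∧ e = 1)

instance (P Q : ℕ) (e : ℤ) : Decidable (Cls P Q e) := by
  unfold Cls; infer_instance

theorem table0 : ∀ P Q : Fin 8, ∀ e ∈ [(1 : ℤ), -1], Cls P Q e →
    ∀ i j k l m : Fin 2,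
      (tw P ^ (i : ℕ) * (rc P Q * e) ^ (k : ℕ) * (rc P Q * e) ^ (l : ℕ) *
        (tw P * (rc P Q * e)) ^ (m : ℕ) *
        ((rc P Q * e) * (rc P Q * e) * (tw P * (rc P Q * e))) ^ (j : ℕ) = 1) →
      (tw Q ^ (i : ℕ) * e ^ (j : ℕ) * (tw Q * e) ^ (l : ℕ) * e ^ (m : ℕ) *
        (e * (tw Q * e) * e) ^ (k : ℕ) = 1) →
      ((i : ℕ), (j : ℕ), (k : ℕ), (l : ℕ), (m : ℕ)) ∈
        [(0, 0, 0, 0, 0), (0, 1, 1, 1, 1), (1, 1, 0, 1, 0), (0, 1, 0, 0, 1),
        (1, 0, 1, 0, 1), (0, 0, 1, 1, 0), (1, 0, 0, 1, 1), (1, 1, 1, 0, 0)] := by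
  decide +kernel

theorem table1 : ∀ P Q : Fin 8, ∀ e ∈ [(1 : ℤ), -1], Cls P Q e →
    ∀ s i j k l : Fin 2,
      (ng P ^ (s : ℕ) * tw P ^ (i : ℕ) * (rc P Q * e) ^ (k : ℕ) *
        (ng P * tw P * (rc P Q * e)) ^ (l : ℕ) *
        (ng P * tw P * (rc P Q * e)) ^ (j : ℕ) = 1) →
      (ng Q ^ (s : ℕ) * tw Q ^ (i : ℕ) * e ^ (j : ℕ) * e ^ (l : ℕ) *
        (ng Q * tw Q * e) ^ (k : ℕ) = 1) →
      (ng ((2 * (P : ℕ) + Q) % 8) ^ (s : ℕ) * tw ((2 * (P : ℕ) + Q) % 8) ^ (i : ℕ) *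
        (rc ((2 * (P : ℕ) + Q) % 8) P * (rc P Q * e)) ^ (j : ℕ) *
        (rc ((2 * (P : ℕ) + Q) % 8) Q * (tw Q * e)) ^ (k : ℕ) *
        (rc ((2 * (P : ℕ) + Q) % 8) P * (rc P Q * e)) ^ (l : ℕ) = 1) →
      (ng P ^ (s : ℕ) * tw P ^ (i : ℕ) * (rc P P * (tw P * (rc P Q * e))) ^ (j : ℕ) *
        (rc P Q * e) ^ (k : ℕ) * (ng P * tw P * (rc P Q * e)) ^ (l : ℕ) = 1) →
      ((s : ℕ), (i : ℕ), (j : ℕ), (k : ℕ), (l : ℕ)) ∈
        [(0, 0, 0, 0, 0), (1, 1, 1, 1, 0), (0, 0, 1, 0, 1), (1, 1, 0, 1, 1)] := by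
  decide +kernel

variable {p q R S t : ℕ} {T : ℤ}

section

variable [hp : Fact p.Prime] [hq : Fact q.Prime] [hR : Fact R.Prime] [hS : Fact S.Prime]

theorem tw_eq {n : ℕ} [Fact n.Prime] (h : n ≠ 2) : legendreSym n 2 = tw (n % 8) := by
  rw [two_val h]; rfl

theorem ng_eq {n : ℕ} [Fact n.Prime] (h : n ≠ 2) : legendreSym n (-1) = ng (n % 8) := by
  rw [neg_one_val h]; rfl

theorem rc_eq {n m : ℕ} [Fact n.Prime] [Fact m.Prime] (h : n ≠ 2) (h' : m ≠ 2) :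
    legendreSym n m = rc (n % 8) (m % 8) * legendreSym m n := by
  rw [recip h h']; rfl

theorem e_mem (D : Data p q R S t T) : legendreSym q p ∈ [(1 : ℤ), -1] := by
  have nq := Data.ndvd_prime D.hp D.hq D.p_ne_q.symm
  have := leg_sq (p := q) nq
  have h2 : (legendreSym q p - 1) * (legendreSym q p + 1) = 0 := by linear_combination this
  simp only [List.mem_cons, List.not_mem_nil, or_false]
  rcases mul_eq_zero.mp h2 with h | h
  · left; linarith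
  · right; linarith

/-- The elements of the first Selmer set. -/
theorem sel0_sub (D : Data p q R S t T) (hc : Cls (p % 8) (q % 8) (legendreSym q p)) {d : ℤ}
    (hd : d ∈ Sel (-100 * p * q) (4 * p * q * R * S)) :
    d = 1 ∨ d = p * q * R * S ∨ d = 2 * p * R ∨ d = p * S ∨ d = 2 * q * S ∨ d = q * R ∨
      d = 2 * R * S ∨ d = 2 * p * q := by
  have hp2 : p ≠ 2 := by have := D.p2; omega
  have hq2 : q ≠ 2 := by have := D.q2; omega
  obtain ⟨i, j, k, l, m, hi, hj, hk, hl, hm, e⟩ := shape0 D hd.1 hd.2.1 (sel_pos D hd)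
  have hd' := hd
  rw [e] at hd'
  have h1 := c0p D hj hd'
  have h2 := c0q D hk hd'
  rw [lpR D, lpS D, tw_eq hp2, rc_eq hp2 hq2] at h1
  rw [lqR D, lqS D, tw_eq hq2] at h2
  have h3 := table0 ⟨p % 8, Nat.mod_lt _ (by norm_num)⟩ ⟨q % 8, Nat.mod_lt _ (by norm_num)⟩
    (legendreSym q p) (e_mem D) hc ⟨i, hi⟩ ⟨j, hj⟩ ⟨k, hk⟩ ⟨l, hl⟩ ⟨m, hm⟩ h1 h2
  simp only [List.mem_cons, Prod.mk.injEq, List.not_mem_nil, or_false] at h3
  rcases h3 with h | h | h | h | h | h | h | h <;> obtain ⟨rfl, rfl, rfl, rfl, rfl⟩ := h <;>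
    simp only [pow_zero, pow_one, one_mul, mul_one] at e <;> tauto

/-- The elements of the second Selmer set. -/
theorem sel1_sub (D : Data p q R S t T) (hc : Cls (p % 8) (q % 8) (legendreSym q p)) {d : ℤ}
    (hd : d ∈ Sel (200 * p * q) (-32 * p * q * T ^ 2)) :
    d = 1 ∨ d = -2 * p * q ∨ d = p * T ∨ d = -2 * q * T := by
  have hp2 : p ≠ 2 := by have := D.p2; omega
  have hq2 : q ≠ 2 := by have := D.q2; omega
  have hR2 : R ≠ 2 := by have := D.R_ge; omega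
  have hS2 : S ≠ 2 := by have := D.S_gt_R; omega
  have hR8 : R % 8 = (2 * (p % 8) + q % 8) % 8 := by rw [D.eR]; omega
  have hS8 : S % 8 = p % 8 := by rw [D.eS]; omega
  obtain ⟨s, i, j, k, l, hs, hi, hj, hk, hl, e⟩ := shape1 D hd.1 hd.2.1
  have hd' := hd
  rw [e] at hd'
  have h1 := c1p D hj hd'
  have h2 := c1q D hk hd'
  have h3 := c1R D hd'
  have h4 := c1S D hd'
  rw [lpT D, ng_eq hp2, tw_eq hp2, rc_eq hp2 hq2] at h1
  rw [lqT D, ng_eq hq2, tw_eq hq2] at h2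
  rw [lRT D, ng_eq hR2, tw_eq hR2, rc_eq hR2 hp2, rc_eq hR2 hq2, lpR D, lqR D, tw_eq hq2,
    rc_eq hp2 hq2, hR8] at h3
  rw [lST D, ng_eq hS2, tw_eq hS2, rc_eq hS2 hp2, rc_eq hS2 hq2, lpS D, lqS D, tw_eq hp2,
    rc_eq hp2 hq2, hS8] at h4
  have h5 := table1 ⟨p % 8, Nat.mod_lt _ (by norm_num)⟩ ⟨q % 8, Nat.mod_lt _ (by norm_num)⟩
    (legendreSym q p) (e_mem D) hc ⟨s, hs⟩ ⟨i, hi⟩ ⟨j, hj⟩ ⟨k, hk⟩ ⟨l, hl⟩ h1 h2 h3 h4
  simp only [List.mem_cons, Prod.mk.injEq, List.not_mem_nil, or_false] at h5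
  rcases h5 with h | h | h | h <;> obtain ⟨rfl, rfl, rfl, rfl, rfl⟩ := h <;>
    simp only [pow_zero, pow_one, one_mul, mul_one, neg_mul] at e ⊢ <;> tauto

end

/-! ### Global solutions -/

theorem sqf_big (D : Data p q R S t T) : Squarefree (2 * p * q * R * S : ℕ) := by
  have hlt := D.S_gt_R
  have hR11 := D.R_ge
  have h3p := D.p_ge
  have h3q := D.q_ge
  have cop : ∀ {m n : ℕ}, m.Prime → n.Prime → m ≠ n → m.Coprime n := fun hm hn h =>
    (Nat.coprime_primes hm hn).mpr h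
  have c1 : Nat.Coprime 2 p := cop Nat.prime_two D.hp (by omega)
  have c2 : Nat.Coprime (2 * p) q := Nat.Coprime.mul_left (cop Nat.prime_two D.hq (by omega))
    (cop D.hp D.hq D.p_ne_q)
  have c3 : Nat.Coprime (2 * p * q) R := Nat.Coprime.mul_left (Nat.Coprime.mul_left
    (cop Nat.prime_two D.hR (by omega)) (cop D.hp D.hR (by omega))) (cop D.hq D.hR (by omega))
  have c4 : Nat.Coprime (2 * p * q * R) S := Nat.Coprime.mul_left (Nat.Coprime.mul_left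
    (Nat.Coprime.mul_left
    (cop Nat.prime_two D.hS (by omega)) (cop D.hp D.hS (by omega))) (cop D.hq D.hS (by omega)))
    (cop D.hR D.hS (by omega))
  rw [Nat.squarefree_mul c4, Nat.squarefree_mul c3, Nat.squarefree_mul c2, Nat.squarefree_mul c1]
  exact ⟨⟨⟨⟨Nat.prime_two.prime.squarefree, D.hp.prime.squarefree⟩, D.hq.prime.squarefree⟩,
    D.hR.prime.squarefree⟩, D.hS.prime.squarefree⟩

theorem sqf_big' (D : Data p q R S t T) : Squarefree (2 * p * q * t : ℕ) := by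
  have h3p := D.p_ge
  have h3q := D.q_ge
  have cop : ∀ {m n : ℕ}, m.Prime → n.Prime → m ≠ n → m.Coprime n := fun hm hn h =>
    (Nat.coprime_primes hm hn).mpr h
  have c1 : Nat.Coprime 2 p := cop Nat.prime_two D.hp (by omega)
  have c2 : Nat.Coprime (2 * p) q := Nat.Coprime.mul_left (cop Nat.prime_two D.hq (by omega))
    (cop D.hp D.hq D.p_ne_q)
  have c3 : Nat.Coprime (2 * p * q) t := Nat.Coprime.mul_left (Nat.Coprime.mul_left
    (cop Nat.prime_two D.ht D.t_ne_two.symm) (cop D.hp D.ht D.t_ne_p.symm))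
    (cop D.hq D.ht D.t_ne_q.symm)
  rw [Nat.squarefree_mul c3, Nat.squarefree_mul c2, Nat.squarefree_mul c1]
  exact ⟨⟨⟨Nat.prime_two.prime.squarefree, D.hp.prime.squarefree⟩, D.hq.prime.squarefree⟩,
    D.ht.prime.squarefree⟩

/-- Membership in `Glob` from a factorisation `b = d c` and an integral solution. -/
theorem glob_mk {a b d c : ℤ} (hsq : Squarefree d) (hb : b = d * c) (N M e : ℤ)
    (h0 : M ≠ 0 ∨ e ≠ 0) (h : N ^ 2 = d * M ^ 4 + a * M ^ 2 * e ^ 2 + c * e ^ 4) :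
    d ∈ Glob a b := by
  refine ⟨hsq, ⟨c, hb⟩, N, M, e, ?_, ?_⟩
  · rcases h0 with h0 | h0
    · left; exact_mod_cast h0
    · right; exact_mod_cast h0
  · rw [hb, Int.mul_ediv_cancel_left _ hsq.ne_zero]
    exact_mod_cast h

theorem glob0 (D : Data p q R S t T) {d : ℤ}
    (hd : d = 1 ∨ d = p * q * R * S ∨ d = 2 * p * R ∨ d = p * S ∨ d = 2 * q * S ∨ d = q * R ∨
      d = 2 * R * S ∨ d = 2 * p * q) : d ∈ Glob (-100 * p * q) (4 * p * q * R * S) := by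
  have hsq : ∀ n : ℕ, n ∣ 2 * p * q * R * S → Squarefree (n : ℤ) := fun n hn => by
    rw [← Int.squarefree_natAbs]; simpa using (sqf_big D).squarefree_of_dvd hn
  have eR : (R : ℤ) = 2 * p + q := by rw [D.eR]; push_cast; ring
  have eS : (S : ℤ) = 81 * p + 128 * q := by rw [D.eS]; push_cast; ring
  rcases hd with rfl | rfl | rfl | rfl | rfl | rfl | rfl | rfl
  · exact glob_mk squarefree_one (c := 4 * p * q * R * S) (by ring) 1 1 0 (by norm_num) (by ring)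
  · refine glob_mk ?_ (c := 4) (by ring) 2 0 1 (by norm_num) (by ring)
    exact_mod_cast hsq (p * q * R * S) ⟨2, by ring⟩
  · refine glob_mk ?_ (c := 2 * q * S) (by ring) (2 * p + 16 * q) 1 1 (by norm_num)
      (by rw [eR, eS]; ring)
    exact_mod_cast hsq (2 * p * R) ⟨q * S, by ring⟩
  · refine glob_mk ?_ (c := 4 * q * R) (by ring) (9 * p + 2 * q) 1 1 (by norm_num)
      (by rw [eR, eS]; ring)
    exact_mod_cast hsq (p * S) ⟨2 * q * R, by ring⟩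
  · refine glob_mk ?_ (c := 2 * p * R) (by ring) (2 * p + 16 * q) 1 1 (by norm_num)
      (by rw [eR, eS]; ring)
    exact_mod_cast hsq (2 * q * S) ⟨p * R, by ring⟩
  · refine glob_mk ?_ (c := 4 * p * S) (by ring) (2 * (9 * p + 2 * q)) 2 1 (by norm_num)
      (by rw [eR, eS]; ring)
    exact_mod_cast hsq (q * R) ⟨2 * p * S, by ring⟩
  · refine glob_mk ?_ (c := 2 * p * q) (by ring) (18 * p + 16 * q) 1 1 (by norm_num)
      (by rw [eR, eS]; ring)
    exact_mod_cast hsq (2 * R * S) ⟨p * q, by ring⟩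
  · refine glob_mk ?_ (c := 2 * R * S) (by ring) (18 * p + 16 * q) 1 1 (by norm_num)
      (by rw [eR, eS]; ring)
    exact_mod_cast hsq (2 * p * q) ⟨R * S, by ring⟩

theorem glob1 (D : Data p q R S t T) {d : ℤ}
    (hd : d = 1 ∨ d = -2 * p * q ∨ d = p * T ∨ d = -2 * q * T) :
    d ∈ Glob (200 * p * q) (-32 * p * q * T ^ 2) := by
  have hsq : ∀ d : ℤ, d.natAbs ∣ 2 * p * q * t → Squarefree d := fun n hn => by
    rw [← Int.squarefree_natAbs]; exact (sqf_big' D).squarefree_of_dvd hn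
  have eT := D.eT
  have et := D.et
  rcases hd with rfl | rfl | rfl | rfl
  · exact glob_mk squarefree_one (c := -32 * p * q * T ^ 2) (by ring) 1 1 0 (by norm_num) (by ring)
  · refine glob_mk ?_ (c := 16 * T ^ 2) (by ring) (4 * T) 0 1 (by norm_num) (by ring)
    apply hsq
    simp only [Int.natAbs_mul, Int.natAbs_natCast]
    exact ⟨t, rfl⟩
  · refine glob_mk ?_ (c := -32 * q * T) (by ring) (2 * (6 * p + 8 * q)) 2 1 (by norm_num)
      (by rw [eT]; ring)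
    apply hsq
    simp only [Int.natAbs_mul, Int.natAbs_natCast, et]
    exact ⟨2 * q, by ring⟩
  · refine glob_mk ?_ (c := 16 * p * T) (by ring) (2 * (6 * p + 8 * q)) 2 1 (by norm_num)
      (by rw [eT]; ring)
    apply hsq
    simp only [Int.natAbs_mul, Int.natAbs_natCast, et]
    exact ⟨p, by simp; ring⟩

end Pool.Agent.H35.Fam3
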