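import Pool.Agent.H35.Fam3d

/-!
# A two-parameter family with rank and 2-isogeny Selmer rank both equal to three

For primes `p, q` such that `2p+q`, `81p+128q`, `|9p-8q|` are prime and `(p mod 8, q mod 8, (p/q))`
lies in one of fourteen classes, the curve `y² = x³ - 100pq x² + 4pq(2p+q)(81p+128q) x` has
Mordell-Weil rank `3` and 2-isogeny Selmer rank `3`.
-/

namespace Pool.Agent.Results.MP_e2b281_nt.RankThreeFamily

open Pool.Agent.H23 Pool.Agent.H35 Pool.Agent.H35.Fam3

theorem card0 {p q R S t : ℕ} {T : ℤ} (D : Data p q R S t T) :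
    ({1, (p * q * R * S : ℤ), (2 * p * R : ℤ), (p * S : ℤ), (2 * q * S : ℤ), (q * R : ℤ),
      (2 * R * S : ℤ), (2 * p * q : ℤ)} : Set ℤ).ncard = 8 := by
  have hlt := D.S_gt_R
  have hp3 := D.p_ge
  have hq5 := D.q_ge'
  have hp2 := D.p2
  have hq2 := D.q2
  have hR2 : R % 2 = 1 := by rw [D.eR]; omega
  have hS2 : S % 2 = 1 := by rw [D.eS]; omega
  -- work with natural numbers
  have odd_mul : ∀ {x y : ℕ}, x % 2 = 1 → y % 2 = 1 → (x * y) % 2 = 1 := fun hx hy => by
    rw [Nat.mul_mod, hx, hy]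
  have o1 : (p * q * R * S) % 2 = 1 := odd_mul (odd_mul (odd_mul hp2 hq2) hR2) hS2
  have o2 : (p * S) % 2 = 1 := odd_mul hp2 hS2
  have o3 : (q * R) % 2 = 1 := odd_mul hq2 hR2
  have e1 : (2 * p * R) % 2 = 0 := by rw [mul_assoc]; omega
  have e2 : (2 * q * S) % 2 = 0 := by rw [mul_assoc]; omega
  have e3 : (2 * R * S) % 2 = 0 := by rw [mul_assoc]; omega
  have e4 : (2 * p * q) % 2 = 0 := by rw [mul_assoc]; omega
  have s1 : 1 < p * S := by nlinarith
  have s2 : 1 < q * R := by nlinarith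
  have s3 : p * q * R * S = (p * S) * (q * R) := by ring
  have s4 : p * S < p * q * R * S := by rw [s3]; nlinarith
  have s5 : q * R < p * q * R * S := by rw [s3]; nlinarith
  have npq : ¬ p ∣ q := fun h => D.p_ne_q ((Nat.prime_dvd_prime_iff_eq D.hp D.hq).mp h)
  have npR : ¬ p ∣ R := fun h => by
    have := (Nat.prime_dvd_prime_iff_eq D.hp D.hR).mp h; omega
  have npS : ¬ p ∣ S := fun h => by
    have := (Nat.prime_dvd_prime_iff_eq D.hp D.hS).mp h; omega
  have s6 : p * S ≠ q * R := fun h => by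
    rcases (Nat.Prime.dvd_mul D.hp).mp (⟨S, h.symm⟩ : p ∣ q * R) with h | h
    · exact npq h
    · exact npR h
  have s7 : 2 * p * R ≠ 2 * q * S := fun h => by
    have h' : p * R = q * S := by
      have : 2 * (p * R) = 2 * (q * S) := by rw [← mul_assoc, ← mul_assoc]; exact h
      omega
    rcases (Nat.Prime.dvd_mul D.hp).mp (⟨R, h'.symm⟩ : p ∣ q * S) with h | h
    · exact npq h
    · exact npS h
  have s8 : 2 * p * R < 2 * R * S := by
    have : p * R < R * S := by rw [mul_comm R S]; exact Nat.mul_lt_mul_of_pos_right (by omega) (by omega)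
    calc 2 * p * R = 2 * (p * R) := by ring
      _ < 2 * (R * S) := by omega
      _ = 2 * R * S := by ring
  have s9 : 2 * q * S < 2 * R * S := by
    have : q * S < R * S := Nat.mul_lt_mul_of_pos_right (by omega) (by omega)
    calc 2 * q * S = 2 * (q * S) := by ring
      _ < 2 * (R * S) := by omega
      _ = 2 * R * S := by ring
  have s10 : 2 * p * q < 2 * p * R := Nat.mul_lt_mul_of_pos_left (by omega) (by omega)
  have s11 : 2 * p * q < 2 * q * S := by
    have : q * p < q * S := Nat.mul_lt_mul_of_pos_left (by omega) (by omega)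
    calc 2 * p * q = 2 * (q * p) := by ring
      _ < 2 * (q * S) := by omega
      _ = 2 * q * S := by ring
  have key : ({1, (p * q * R * S), (2 * p * R), (p * S), (2 * q * S), (q * R),
      (2 * R * S), (2 * p * q)} : Finset ℕ).card = 8 := by
    rw [Finset.card_insert_of_notMem, Finset.card_insert_of_notMem, Finset.card_insert_of_notMem,
      Finset.card_insert_of_notMem, Finset.card_insert_of_notMem, Finset.card_insert_of_notMem,
      Finset.card_insert_of_notMem, Finset.card_singleton]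
    all_goals simp only [Finset.mem_insert, Finset.mem_singleton]
    all_goals omega
  have e : ({1, (p * q * R * S : ℤ), (2 * p * R : ℤ), (p * S : ℤ), (2 * q * S : ℤ), (q * R : ℤ),
      (2 * R * S : ℤ), (2 * p * q : ℤ)} : Set ℤ) = (fun n : ℕ => (n : ℤ)) '' (({1, (p * q * R * S),
      (2 * p * R), (p * S), (2 * q * S), (q * R), (2 * R * S), (2 * p * q)} : Finset ℕ) : Set ℕ) := by
    simp only [Finset.coe_insert, Finset.coe_singleton, Set.image_insert_eq, Set.image_singleton]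
    push_cast
    rfl
  rw [e, Set.ncard_image_of_injective _ Nat.cast_injective, Set.ncard_coe_finset, key]

theorem card1 {p q R S t : ℕ} {T : ℤ} (D : Data p q R S t T) :
    ({1, (-2 * p * q : ℤ), (p * T : ℤ), (-2 * q * T : ℤ)} : Set ℤ).ncard = 4 := by
  have hp3 := D.p_ge
  have hq5 := D.q_ge'
  have hp2 := D.p2
  have hT2 : T % 2 = 1 := by rw [D.eT]; omega
  have o1 : ((p : ℤ) * T) % 2 = 1 := by
    rw [Int.mul_emod, hT2]
    have : (p : ℤ) % 2 = 1 := by omega
    rw [this]; rfl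
  have e1 : (-2 * p * q : ℤ) % 2 = 0 := by
    have : (-2 * p * q : ℤ) = 2 * (-(p * q)) := by ring
    rw [this]; omega
  have e2 : (-2 * q * T : ℤ) % 2 = 0 := by
    have : (-2 * q * T : ℤ) = 2 * (-(q * T)) := by ring
    rw [this]; omega
  have h1 : (p : ℤ) * T ≠ 1 := by
    intro h
    have h' : (p : ℤ) ∣ 1 := ⟨T, h.symm⟩
    have := Int.le_of_dvd (by norm_num) h'
    omega
  have h2 : (-2 * p * q : ℤ) ≠ -2 * q * T := by
    intro h
    have hq0 : (-2 * q : ℤ) ≠ 0 := by
      have : (0 : ℤ) < q := by omega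
      nlinarith
    have h' : (-2 * q : ℤ) * p = -2 * q * T := by rw [← h]; ring
    have h3 := mul_left_cancel₀ hq0 h'
    exact D.p_ndvd_T ⟨1, by rw [← h3]; ring⟩
  have key : ({1, (-2 * p * q : ℤ), (p * T : ℤ), (-2 * q * T : ℤ)} : Finset ℤ).card = 4 := by
    rw [Finset.card_insert_of_notMem, Finset.card_insert_of_notMem, Finset.card_insert_of_notMem,
      Finset.card_singleton]
    all_goals simp only [Finset.mem_insert, Finset.mem_singleton]
    all_goals omega
  have e : ({1, (-2 * p * q : ℤ), (p * T : ℤ), (-2 * q * T : ℤ)} : Set ℤ) =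
      (({1, (-2 * p * q : ℤ), (p * T : ℤ), (-2 * q * T : ℤ)} : Finset ℤ) : Set ℤ) := by
    simp only [Finset.coe_insert, Finset.coe_singleton]
  rw [e, Set.ncard_coe_finset, key]

/-- For primes `p`, `q` with `2p+q`, `81p+128q`, `|9p-8q|` prime and `(p mod 8, q mod 8, (p/q))` in
one of fourteen classes, `y² = x³ - 100pq x² + 4pq(2p+q)(81p+128q) x` has Mordell-Weil rank `3`, and
the two descent sets have `2³` and `2²` elements, so that the Selmer rank is `s = 3 + 2 - 2 = 3`. -/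
theorem result (p q : ℕ) (hp : p.Prime) (hq : q.Prime) (hR : (2 * p + q).Prime)
    (hS : (81 * p + 128 * q).Prime) (hT : (9 * (p : ℤ) - 8 * q).natAbs.Prime)
    (hc : ((p % 8, q % 8) ∈ [(3, 5), (5, 3), (5, 5)]) ∨
      ((p % 8, q % 8) ∈ [(1, 3), (1, 5), (3, 1), (5, 1), (3, 7), (5, 7), (7, 5)] ∧
        jacobiSym p q = -1) ∨
      ((p % 8, q % 8) = (7, 3) ∧ jacobiSym p q = 1))
    (a b : ℤ) (ha : a = -100 * p * q) (hb : b = 4 * p * q * (2 * p + q) * (81 * p + 128 * q)) :
    b ≠ 0 ∧ a ^ 2 - 4 * b ≠ 0 ∧ mwRank a b = 3 ∧ (Sel a b).ncard = 2 ^ 3 ∧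
      (Sel (-2 * a) (a ^ 2 - 4 * b)).ncard = 2 ^ 2 := by
  have : Fact p.Prime := ⟨hp⟩
  have : Fact q.Prime := ⟨hq⟩
  have : Fact (2 * p + q).Prime := ⟨hR⟩
  have : Fact (81 * p + 128 * q).Prime := ⟨hS⟩
  have hodd : p % 2 = 1 ∧ q % 2 = 1 := by
    simp only [List.mem_cons, Prod.mk.injEq, List.not_mem_nil, or_false] at hc
    omega
  have D : Data p q (2 * p + q) (81 * p + 128 * q) (9 * (p : ℤ) - 8 * q).natAbs
      (9 * (p : ℤ) - 8 * q) :=
    ⟨hp, hq, hR, hS, hT, hodd.1, hodd.2, rfl, rfl, rfl, rfl⟩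
  have hcls : Cls (p % 8) (q % 8) (legendreSym q p) := by
    rw [← jacobiSym.legendreSym.to_jacobiSym] at hc
    rcases hc with h | h | h
    · left
      refine ⟨h, ?_⟩
      have := e_mem D
      simpa using this
    · right; left; exact h
    · right; right; exact h
  set R := 2 * p + q with hRdef
  set S := 81 * p + 128 * q with hSdef
  set T : ℤ := 9 * (p : ℤ) - 8 * q with hTdef
  have hb' : b = 4 * p * q * R * S := by rw [hb, hRdef, hSdef]; push_cast; ring
  have hdisc : a ^ 2 - 4 * b = -32 * p * q * T ^ 2 := by rw [ha, hb']; exact D.b'_eq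
  have h2a : -2 * a = 200 * p * q := by rw [ha]; ring
  have hb0 : b ≠ 0 := by rw [hb']; exact D.b_ne
  have hd0 : a ^ 2 - 4 * b ≠ 0 := by rw [hdisc]; exact D.b'_ne
  -- the first set
  have E0 : ∀ d, d ∈ Sel a b → d ∈ ({1, (p * q * R * S : ℤ), (2 * p * R : ℤ), (p * S : ℤ),
      (2 * q * S : ℤ), (q * R : ℤ), (2 * R * S : ℤ), (2 * p * q : ℤ)} : Set ℤ) := by
    intro d hd
    rw [ha, hb'] at hd
    simpa only [Set.mem_insert_iff, Set.mem_singleton_iff] using sel0_sub D hcls hd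
  have E0' : ∀ d, d ∈ ({1, (p * q * R * S : ℤ), (2 * p * R : ℤ), (p * S : ℤ),
      (2 * q * S : ℤ), (q * R : ℤ), (2 * R * S : ℤ), (2 * p * q : ℤ)} : Set ℤ) → d ∈ Glob a b := by
    intro d hd
    rw [ha, hb']
    apply glob0 D
    simpa only [Set.mem_insert_iff, Set.mem_singleton_iff] using hd
  have E1 : ∀ d, d ∈ Sel (-2 * a) (a ^ 2 - 4 * b) →
      d ∈ ({1, (-2 * p * q : ℤ), (p * T : ℤ), (-2 * q * T : ℤ)} : Set ℤ) := by
    intro d hd
    rw [h2a, hdisc] at hd
    simpa only [Set.mem_insert_iff, Set.mem_singleton_iff] using sel1_sub D hcls hd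
  have E1' : ∀ d, d ∈ ({1, (-2 * p * q : ℤ), (p * T : ℤ), (-2 * q * T : ℤ)} : Set ℤ) →
      d ∈ Glob (-2 * a) (a ^ 2 - 4 * b) := by
    intro d hd
    rw [h2a, hdisc]
    apply glob1 D
    simpa only [Set.mem_insert_iff, Set.mem_singleton_iff] using hd
  have s0 : Sel a b = {1, (p * q * R * S : ℤ), (2 * p * R : ℤ), (p * S : ℤ),
      (2 * q * S : ℤ), (q * R : ℤ), (2 * R * S : ℤ), (2 * p * q : ℤ)} :=
    Set.Subset.antisymm E0 (fun d hd => glob_subset_sel a b (E0' d hd))
  have g0 : Glob a b = {1, (p * q * R * S : ℤ), (2 * p * R : ℤ), (p * S : ℤ),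
      (2 * q * S : ℤ), (q * R : ℤ), (2 * R * S : ℤ), (2 * p * q : ℤ)} :=
    Set.Subset.antisymm (fun d hd => E0 d (glob_subset_sel a b hd)) E0'
  have s1 : Sel (-2 * a) (a ^ 2 - 4 * b) = {1, (-2 * p * q : ℤ), (p * T : ℤ), (-2 * q * T : ℤ)} :=
    Set.Subset.antisymm E1 (fun d hd => glob_subset_sel _ _ (E1' d hd))
  have g1 : Glob (-2 * a) (a ^ 2 - 4 * b) = {1, (-2 * p * q : ℤ), (p * T : ℤ), (-2 * q * T : ℤ)} :=
    Set.Subset.antisymm (fun d hd => E1 d (glob_subset_sel _ _ hd)) E1'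
  have c0 := card0 D
  have c1 := card1 D
  refine ⟨hb0, hd0, ?_, ?_, ?_⟩
  · have h := two_pow_rank hb0 hd0
    rw [g0, g1, c0, c1] at h
    have h' : 2 ^ (mwRank a b + 2) = 2 ^ 5 := by rw [h]; norm_num
    have := Nat.pow_right_injective (le_refl 2) h'
    omega
  · rw [s0, c0]; norm_num
  · rw [s1, c1]; norm_num

end Pool.Agent.Results.MP_e2b281_nt.RankThreeFamily
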