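import Pool.Agent.H35.Local

/-!
# Conditions satisfied by elements of the Selmer sets, in terms of Legendre symbols
-/

namespace Pool.Agent.H35

open Pool.Agent.H23

section

variable {p : ℕ} [hp : Fact p.Prime]

theorem zmod_ne {d : ℤ} (h : ¬ (p : ℤ) ∣ d) : (d : ZMod p) ≠ 0 := by
  intro h'
  exact h ((ZMod.intCast_zmod_eq_zero_iff_dvd d p).mp h')

theorem leg_one {d : ℤ} (h : ¬ (p : ℤ) ∣ d) (hs : IsSquare (d : ZMod p)) :
    legendreSym p d = 1 :=
  (legendreSym.eq_one_iff p (zmod_ne h)).mpr hs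

theorem leg_sq {d : ℤ} (h : ¬ (p : ℤ) ∣ d) : legendreSym p d * legendreSym p d = 1 := by
  have := legendreSym.sq_one p (zmod_ne h)
  rw [← this]; ring

theorem leg_pow (d : ℤ) (n : ℕ) : legendreSym p (d ^ n) = legendreSym p d ^ n :=
  map_pow (legendreSym.hom p) d n

theorem leg_congr {x y : ℤ} (h : (p : ℤ) ∣ x - y) : legendreSym p x = legendreSym p y := by
  rw [legendreSym.mod p x, legendreSym.mod p y]
  congr 1
  exact Int.ModEq.symm ((Int.modEq_iff_dvd).mpr h)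

theorem not_dvd_left {x y w : ℤ} (h : x * y = w) (hw : ¬ (p : ℤ) ∣ w) : ¬ (p : ℤ) ∣ x :=
  fun h' => hw (h ▸ Dvd.dvd.mul_right h' y)

/-- Additive reduction type place: `p ∣ a`, `b = p w`, `p ∤ w`; the case `p ∤ d`. -/
theorem cond_unit {a b d w : ℤ} (hd : d ∈ Sel a b) (ha : (p : ℤ) ∣ a) (hb : b = p * w)
    (hw : ¬ (p : ℤ) ∣ w) (hpd : ¬ (p : ℤ) ∣ d) : legendreSym p d = 1 := by
  obtain ⟨_, hdb, _, hloc⟩ := hd
  obtain ⟨c, hc⟩ := hdb
  have hp0 : (p : ℤ) ≠ 0 := by exact_mod_cast hp.out.ne_zero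
  have hd0 : d ≠ 0 := by
    rintro rfl
    exact hpd (dvd_zero _)
  have hq : b / d = c := by rw [hc, Int.mul_ediv_cancel_left _ hd0]
  have hpp : Prime (p : ℤ) := Nat.prime_iff_prime_int.mp hp.out
  apply leg_one hpd
  have h1 := hloc p
  rw [hq] at h1
  refine isSquare_of_sol ha (c := c) ?_ ?_ h1
  · have : (p : ℤ) ∣ d * c := ⟨w, by rw [← hc, hb]⟩
    exact (hpp.dvd_or_dvd this).resolve_left hpd
  · rintro ⟨u, hu⟩
    apply hw
    have h3 : (p : ℤ) * w = p * (p * (d * u)) := by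
      rw [← hb, hc, hu]; ring
    exact ⟨d * u, mul_left_cancel₀ hp0 h3⟩

/-- Additive reduction type place: `p ∣ a`, `b = p w`, `p ∤ w`; the case `d = p x`. -/
theorem cond_mult {a b d w x : ℤ} (hd : d ∈ Sel a b) (ha : (p : ℤ) ∣ a) (hb : b = p * w)
    (hw : ¬ (p : ℤ) ∣ w) (hdx : d = p * x) : legendreSym p x * legendreSym p w = 1 := by
  obtain ⟨_, hdb, _, hloc⟩ := hd
  obtain ⟨c, hc⟩ := hdb
  have hp0 : (p : ℤ) ≠ 0 := by exact_mod_cast hp.out.ne_zero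
  have hxc : x * c = w := by
    have : (p : ℤ) * (x * c) = p * w := by rw [← hb, hc, hdx]; ring
    exact mul_left_cancel₀ hp0 this
  have hpx : ¬ (p : ℤ) ∣ x := not_dvd_left hxc hw
  have hpc : ¬ (p : ℤ) ∣ c := not_dvd_left (by rw [mul_comm]; exact hxc) hw
  have hx0 : x ≠ 0 := by
    rintro rfl
    exact hpx (dvd_zero _)
  have hd0 : d ≠ 0 := by rw [hdx]; exact mul_ne_zero hp0 hx0
  have hq : b / d = c := by rw [hc, Int.mul_ediv_cancel_left _ hd0]
  obtain ⟨N, M, e, h0, h1⟩ := hloc p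
  rw [hq] at h1
  have hsq : IsSquare (c : ZMod p) := by
    refine isSquare_of_sol ha (c := d) ⟨x, hdx⟩ ?_ ⟨N, e, M, h0.symm, ?_⟩
    · rintro ⟨u, hu⟩
      apply hpx
      have : (p : ℤ) * x = p * (p * u) := by rw [← hdx, hu]; ring
      exact ⟨u, mul_left_cancel₀ hp0 this⟩
    · rw [h1]; ring
  have hlc := leg_one hpc hsq
  rw [← hxc, legendreSym.mul, hlc, mul_one]
  exact leg_sq hpx

/-- Multiplicative reduction type place. -/
theorem cond_disc {a b d : ℤ} (hd : d ∈ Sel a b) (h2d : ¬ (p : ℤ) ∣ 2 * d) (ha : ¬ (p : ℤ) ∣ a)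
    (hD : (p : ℤ) ∣ a ^ 2 - 4 * b) (hD2 : ¬ (p : ℤ) ^ 2 ∣ a ^ 2 - 4 * b) :
    legendreSym p d = 1 := by
  obtain ⟨_, hdb, _, hloc⟩ := hd
  obtain ⟨c, hc⟩ := hdb
  have hpd : ¬ (p : ℤ) ∣ d := fun h => h2d (Dvd.dvd.mul_left h 2)
  have hd0 : d ≠ 0 := by
    rintro rfl
    exact hpd (dvd_zero _)
  have hq : b / d = c := by rw [hc, Int.mul_ediv_cancel_left _ hd0]
  have h1 := hloc p
  rw [hq] at h1
  rw [hc] at hD hD2
  exact leg_one hpd (isSquare_of_sol' h2d ha hD hD2 h1)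

theorem two_val (h2 : p ≠ 2) :
    legendreSym p 2 = if p % 8 = 1 ∨ p % 8 = 7 then 1 else -1 := by
  rw [legendreSym.at_two h2, ZMod.χ₈_nat_eq_if_mod_eight, if_neg]
  intro h
  rcases hp.out.eq_two_or_odd with h' | h' <;> omega

theorem neg_one_val (h2 : p ≠ 2) :
    legendreSym p (-1) = if p % 8 = 1 ∨ p % 8 = 5 then 1 else -1 := by
  have hodd : p % 2 = 1 := (hp.out.eq_two_or_odd).resolve_left h2
  rw [legendreSym.at_neg_one h2, ZMod.χ₄_nat_eq_if_mod_four, if_neg (by omega)]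
  by_cases h : p % 4 = 1
  · rw [if_pos h, if_pos (by omega)]
  · rw [if_neg h, if_neg (by omega)]

end

theorem recip {p q : ℕ} [hp : Fact p.Prime] [hq : Fact q.Prime] (hp2 : p ≠ 2) (hq2 : q ≠ 2) :
    legendreSym p (q : ℤ) = (if (p % 8 = 3 ∨ p % 8 = 7) ∧ (q % 8 = 3 ∨ q % 8 = 7) then -1 else 1) *
      legendreSym q (p : ℤ) := by
  have hpo : p % 2 = 1 := (hp.out.eq_two_or_odd).resolve_left hp2
  have hqo : q % 2 = 1 := (hq.out.eq_two_or_odd).resolve_left hq2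
  by_cases h : (p % 8 = 3 ∨ p % 8 = 7) ∧ (q % 8 = 3 ∨ q % 8 = 7)
  · rw [if_pos h]
    have := legendreSym.quadratic_reciprocity_three_mod_four (p := q) (q := p) (by omega) (by omega)
    rw [this]; ring
  · rw [if_neg h, one_mul]
    by_cases h1 : q % 4 = 1
    · exact legendreSym.quadratic_reciprocity_one_mod_four (p := q) (q := p) h1 hp2
    · exact (legendreSym.quadratic_reciprocity_one_mod_four (p := p) (q := q) (by omega) hq2).symm

theorem sqf_step {n k l a : ℕ} (hn : Squarefree n) (hl : l.Prime) (h : n ∣ l ^ a * k) :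
    ∃ i n', i < 2 ∧ n = l ^ i * n' ∧ n' ∣ k ∧ Squarefree n' := by
  by_cases hln : l ∣ n
  · obtain ⟨n', rfl⟩ := hln
    rw [Nat.squarefree_mul_iff] at hn
    refine ⟨1, n', by norm_num, by rw [pow_one], ?_, hn.2.2⟩
    have h1 : n' ∣ l ^ a * k := (dvd_mul_left n' l).trans h
    exact (Nat.Coprime.pow_right a hn.1.symm).dvd_of_dvd_mul_left h1
  · refine ⟨0, n, by norm_num, by simp, ?_, hn⟩
    have : n.Coprime (l ^ a) := Nat.Coprime.pow_right a ((Nat.Prime.coprime_iff_not_dvd hl).mpr hln).symm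
    exact this.dvd_of_dvd_mul_left h

theorem sign_form {d : ℤ} {n : ℕ} (h : d.natAbs = n) : ∃ s, s < 2 ∧ d = (-1) ^ s * n := by
  rcases Int.natAbs_eq d with h' | h'
  · exact ⟨0, by norm_num, by rw [h'] ; simp [h]⟩
  · exact ⟨1, by norm_num, by rw [h'] ; simp [h]⟩

end Pool.Agent.H35
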